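import Pool.Agent.AT.Defs

/-! The Lorentz group `O⁺(3,1)` as a topological group, helper171. -/

open MeasureTheory Matrix

namespace Pool.Agent.AT

abbrev Mat := Matrix (Fin 4) (Fin 4) ℝ

lemma J_mul_J : J * J = 1 := by
  unfold J
  rw [Matrix.diagonal_mul_diagonal]
  ext i j
  fin_cases i <;> fin_cases j <;> simp [Matrix.diagonal]

lemma J_transpose : Jᵀ = J := by
  unfold J; exact Matrix.diagonal_transpose _

/-- a Lorentz matrix also satisfies `A J Aᵀ = J` -/
lemma lor_transpose {A : Mat} (h : Aᵀ * J * A = J) : A * J * Aᵀ = J := by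
  have h1 : (J * Aᵀ * J) * A = 1 := by
    calc (J * Aᵀ * J) * A = J * (Aᵀ * J * A) := by simp only [Matrix.mul_assoc]
      _ = 1 := by rw [h, J_mul_J]
  have h2 : A * (J * Aᵀ * J) = 1 := mul_eq_one_comm.1 h1
  calc A * J * Aᵀ = (A * (J * Aᵀ * J)) * J := by
        simp only [Matrix.mul_assoc, J_mul_J, Matrix.mul_one]
    _ = J := by rw [h2, Matrix.one_mul]

lemma lor_col {A : Mat} (h : Aᵀ * J * A = J) :
    A 3 3 ^ 2 = 1 + (A 0 3 ^ 2 + A 1 3 ^ 2 + A 2 3 ^ 2) := by
  have h3 := congrFun (congrFun h 3) 3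
  simp [Matrix.mul_apply, J, Matrix.diagonal, Fin.sum_univ_four, Matrix.transpose_apply] at h3
  nlinarith [h3]

lemma lor_row {A : Mat} (h : Aᵀ * J * A = J) :
    A 3 3 ^ 2 = 1 + (A 3 0 ^ 2 + A 3 1 ^ 2 + A 3 2 ^ 2) := by
  have h3 := congrFun (congrFun (lor_transpose h) 3) 3
  simp [Matrix.mul_apply, J, Matrix.diagonal, Fin.sum_univ_four, Matrix.transpose_apply] at h3
  nlinarith [h3]

lemma lor_pos {A B : Mat} (hA : Aᵀ * J * A = J) (hB : Bᵀ * J * B = J) (a : 0 < A 3 3)
    (b : 0 < B 3 3) : 0 < (A * B) 3 3 := by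
  have h1 := lor_row hA
  have h2 := lor_col hB
  rw [Matrix.mul_apply, Fin.sum_univ_four]
  set p := A 3 0
  set q := A 3 1
  set r := A 3 2
  set u := B 0 3
  set v := B 1 3
  set w := B 2 3
  set x := A 3 3
  set y := B 3 3
  have hcs : (p * u + q * v + r * w) ^ 2 ≤ (p ^ 2 + q ^ 2 + r ^ 2) * (u ^ 2 + v ^ 2 + w ^ 2) := by
    nlinarith [sq_nonneg (p * v - q * u), sq_nonneg (p * w - r * u), sq_nonneg (q * w - r * v)]
  have hlt : (p * u + q * v + r * w) ^ 2 < (x * y) ^ 2 := by
    have e1 : p ^ 2 + q ^ 2 + r ^ 2 = x ^ 2 - 1 := by linarith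
    have e2 : u ^ 2 + v ^ 2 + w ^ 2 = y ^ 2 - 1 := by linarith
    rw [e1, e2] at hcs
    have : 1 ≤ x ^ 2 := by nlinarith [sq_nonneg p, sq_nonneg q, sq_nonneg r]
    have : 1 ≤ y ^ 2 := by nlinarith [sq_nonneg u, sq_nonneg v, sq_nonneg w]
    nlinarith
  have hxy : 0 < x * y := mul_pos a b
  have := abs_lt_of_sq_lt_sq hlt hxy.le
  have := (abs_lt.1 this).1
  linarith

namespace G

instance : Coe G Mat := ⟨Subtype.val⟩

/-- underlying matrix -/
def mat (A : G) : Mat := A.1

@[ext] lemma ext {A B : G} (h : A.mat = B.mat) : A = B := Subtype.ext h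

lemma lor (A : G) : A.matᵀ * J * A.mat = J := A.2.1

lemma pos (A : G) : 0 < A.mat 3 3 := A.2.2

instance : Mul G := ⟨fun A B => ⟨A.1 * B.1, by
  constructor
  · calc (A.1 * B.1)ᵀ * J * (A.1 * B.1) = B.1ᵀ * (A.1ᵀ * J * A.1) * B.1 := by
          rw [Matrix.transpose_mul]; simp only [Matrix.mul_assoc]
      _ = J := by rw [A.2.1, B.2.1]
  · exact lor_pos A.2.1 B.2.1 A.2.2 B.2.2⟩⟩

instance : One G := ⟨⟨1, by
  constructor
  · simp
  · simp⟩⟩

instance : Inv G := ⟨fun A => ⟨J * A.1ᵀ * J, by
  constructor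
  · calc (J * A.1ᵀ * J)ᵀ * J * (J * A.1ᵀ * J)
        = J * (A.1 * (J * J * J) * A.1ᵀ) * J := by
          simp only [Matrix.transpose_mul, Matrix.transpose_transpose, J_transpose,
            Matrix.mul_assoc]
      _ = J * (A.1 * J * A.1ᵀ) * J := by rw [J_mul_J, Matrix.one_mul]
      _ = J := by rw [lor_transpose A.2.1, J_mul_J, Matrix.one_mul]
  · have := A.2.2
    simpa [J, Matrix.mul_apply, Matrix.diagonal, Fin.sum_univ_four] using this⟩⟩

@[simp] lemma mat_mul (A B : G) : (A * B).mat = A.mat * B.mat := rfl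
@[simp] lemma mat_one : (1 : G).mat = 1 := rfl
@[simp] lemma mat_inv (A : G) : (A⁻¹).mat = J * A.matᵀ * J := rfl

instance : Group G where
  mul_assoc A B C := ext (by simp [Matrix.mul_assoc])
  one_mul A := ext (by simp)
  mul_one A := ext (by simp)
  inv_mul_cancel A := ext (by
    calc (J * A.matᵀ * J) * A.mat = J * (A.matᵀ * J * A.mat) := by
          simp only [Matrix.mul_assoc]
      _ = 1 := by rw [lor A, J_mul_J])

instance : TopologicalSpace G := instTopologicalSpaceSubtype

lemma continuous_mat : Continuous mat := continuous_subtype_val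

lemma mat_injective : Function.Injective mat := Subtype.val_injective

lemma isClosed_range : IsClosed {A : Mat | Aᵀ * J * A = J ∧ 0 < A 3 3} := by
  have h : {A : Mat | Aᵀ * J * A = J ∧ 0 < A 3 3}
      = {A : Mat | Aᵀ * J * A = J} ∩ {A : Mat | 1 ≤ A 3 3} := by
    ext A
    constructor
    · rintro ⟨h1, h2⟩
      refine ⟨h1, ?_⟩
      have := lor_col h1
      show 1 ≤ A 3 3
      nlinarith [sq_nonneg (A 0 3), sq_nonneg (A 1 3), sq_nonneg (A 2 3)]
    · rintro ⟨h1, h2⟩
      exact ⟨h1, lt_of_lt_of_le one_pos h2⟩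
  rw [h]
  refine IsClosed.inter ?_ ?_
  · exact isClosed_eq (by fun_prop) continuous_const
  · exact isClosed_le continuous_const (by fun_prop)

lemma isClosedEmbedding : Topology.IsClosedEmbedding mat :=
  isClosed_range.isClosedEmbedding_subtypeVal

instance : SecondCountableTopology Mat :=
  inferInstanceAs (SecondCountableTopology (Fin 4 → Fin 4 → ℝ))
instance : LocallyCompactSpace Mat :=
  inferInstanceAs (LocallyCompactSpace (Fin 4 → Fin 4 → ℝ))
instance : PolishSpace Mat :=
  inferInstanceAs (PolishSpace (Fin 4 → Fin 4 → ℝ))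

instance : T2Space G := isClosedEmbedding.isEmbedding.t2Space
instance : SecondCountableTopology G := isClosedEmbedding.isEmbedding.secondCountableTopology
instance : LocallyCompactSpace G := isClosedEmbedding.locallyCompactSpace
instance : PolishSpace G := isClosedEmbedding.polishSpace

instance : IsTopologicalGroup G where
  continuous_mul := by
    refine Continuous.subtype_mk ?_ _
    exact (continuous_subtype_val.comp continuous_fst).matrix_mul
      (continuous_subtype_val.comp continuous_snd)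
  continuous_inv := by
    refine Continuous.subtype_mk ?_ _
    exact (continuous_const.matrix_mul (continuous_subtype_val.matrix_transpose)).matrix_mul
      continuous_const

instance : MeasurableSpace G := borel G
instance : BorelSpace G := ⟨rfl⟩

example : StandardBorelSpace G := inferInstance
example : MeasurableMul₂ G := inferInstance
example : MeasurableInv G := inferInstance

end G

end Pool.Agent.AT
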