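import Pool.Agent.AT.Geo

/-! Reflections in the faces of the ideal octahedron and the statements of the geometric
modules, helper171. -/

open MeasureTheory Matrix

namespace Pool.Agent.AT

/-- a sign -/
def sg (b : Bool) : ℝ := if b then 1 else -1

/-- the root of a face, `(±1,±1,±1;1)` -/
def root (s : V) : Fin 4 → ℝ := ![sg (s 0), sg (s 1), sg (s 2), 1]

/-- the Lorentz form, time last -/
def form (x y : Fin 4 → ℝ) : ℝ := x 0 * y 0 + x 1 * y 1 + x 2 * y 2 - x 3 * y 3

/-- matrix of the reflection `x ↦ x - ⟨x,v⟩ v` -/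
def reflMat (s : V) : Mat :=
  Matrix.of fun i j => (if i = j then 1 else 0) -
    root s i * (if j = 3 then - root s j else root s j)

lemma sg_sq (b : Bool) : sg b * sg b = 1 := by cases b <;> simp [sg]

lemma reflMat_lor (s : V) : (reflMat s)ᵀ * J * reflMat s = J := by
  cases h0 : s 0 <;> cases h1 : s 1 <;> cases h2 : s 2 <;> ext i j <;>
    fin_cases i <;> fin_cases j <;>
    simp [reflMat, root, J, Matrix.mul_apply, Matrix.diagonal, Fin.sum_univ_four,
      Matrix.transpose_apply, sg, h0, h1, h2] <;> norm_num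

lemma reflMat_pos (s : V) : 0 < reflMat s 3 3 := by
  simp [reflMat, root]

/-- the reflection as an element of `G` -/
def refl (s : V) : G := ⟨reflMat s, reflMat_lor s, reflMat_pos s⟩

lemma refl_sq (s : V) : refl s * refl s = 1 := by
  apply G.ext
  show reflMat s * reflMat s = 1
  cases h0 : s 0 <;> cases h1 : s 1 <;> cases h2 : s 2 <;> ext i j <;>
    fin_cases i <;> fin_cases j <;>
    simp [reflMat, root, Matrix.mul_apply, Fin.sum_univ_four, sg, h0, h1, h2] <;> norm_num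

lemma sg_ham (s t : V) (h : hammingDist s t = 1) :
    sg (s 0) * sg (t 0) + sg (s 1) * sg (t 1) + sg (s 2) * sg (t 2) = 1 := by
  have : ∀ s t : V, hammingDist s t = 1 →
      (s 0 = t 0 ∧ s 1 = t 1 ∧ s 2 = !t 2) ∨ (s 0 = t 0 ∧ s 1 = !t 1 ∧ s 2 = t 2) ∨
      (s 0 = !t 0 ∧ s 1 = t 1 ∧ s 2 = t 2) := by decide
  rcases this s t h with ⟨a, b, c⟩ | ⟨a, b, c⟩ | ⟨a, b, c⟩ <;> rw [a, b, c] <;>
    cases t 0 <;> cases t 1 <;> cases t 2 <;> norm_num [sg]

/-- the dual vector of a root -/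
def coroot (s : V) : Fin 4 → ℝ := fun j => if j = 3 then - root s j else root s j

lemma reflMat_eq (s : V) : reflMat s = 1 - Matrix.vecMulVec (root s) (coroot s) := by
  ext i j
  simp [reflMat, coroot, Matrix.vecMulVec_apply, Matrix.one_apply]

lemma coroot_root (s t : V) (h : hammingDist s t = 1) : coroot s ⬝ᵥ root t = 0 := by
  have h3 := sg_ham s t h
  simp [dotProduct, coroot, root, Fin.sum_univ_four]
  linarith

lemma refl_comm (s t : V) (h : hammingDist s t = 1) : refl s * refl t = refl t * refl s := by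
  apply G.ext
  show reflMat s * reflMat t = reflMat t * reflMat s
  have e1 := coroot_root s t h
  have e2 := coroot_root t s (by rw [hammingDist_comm]; exact h)
  rw [reflMat_eq, reflMat_eq, sub_mul, mul_sub, mul_sub, sub_mul, mul_sub, mul_sub,
    Matrix.vecMulVec_mul_vecMulVec, Matrix.vecMulVec_mul_vecMulVec, e1, e2]
  simp
  abel

/-- the representation of the Coxeter group by Lorentz reflections -/
noncomputable def bb : W →* G :=
  cs.lift ⟨refl, by
    intro s t
    by_cases h : s = t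
    · subst h
      simp [cubeM, refl_sq]
    · by_cases h1 : hammingDist s t = 1
      · have hM : cubeM.M s t = 2 := by simp [cubeM, h, h1]
        show (refl s * refl t) ^ (cubeM.M s t) = 1
        rw [hM, pow_two]
        calc refl s * refl t * (refl s * refl t) = refl s * refl t * (refl t * refl s) := by
              rw [refl_comm s t h1]
          _ = refl s * (refl t * refl t) * refl s := by simp only [mul_assoc]
          _ = 1 := by rw [refl_sq, mul_one, refl_sq]
      · have hM : cubeM.M s t = 0 := by simp [cubeM, h, h1]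
        show (refl s * refl t) ^ (cubeM.M s t) = 1
        rw [hM, pow_zero]⟩

lemma bb_gen (s : V) : bb (gen s) = refl s := by
  unfold bb gen
  exact cs.lift_apply_simple _ s

/-- the hyperboloid -/
def H3 : Set (Fin 4 → ℝ) := {x | form x x = -1 ∧ 0 < x 3}

/-- the base point -/
def e0 : Fin 4 → ℝ := ![0, 0, 0, 1]

/-- union of the six cusp regions -/
def Cusp : Set (Fin 4 → ℝ) := {x | x ∈ H3 ∧ ∃ (i : Fin 3) (e : ℝ), (e = 1 ∨ e = -1) ∧
  (∑ j : Fin 3, |x j.castSucc|) - |x i.castSucc| ≤ x 3 - e * x i.castSucc ∧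
  x 3 - e * x i.castSucc ≤ 1}

/-! ### statements of the geometric modules -/

/-- MODULE T1 (Tits lemma) -/
def StT1 : Prop := Function.Injective bb
/-- MODULE T2 -/
def StT2 : Prop := ∀ (w : W) (i j : Fin 4), ∃ n : ℤ, (bb w).mat i j = n
/-- MODULE T3 (minimise the time coordinate in the orbit) -/
def StT3 : Prop := ∀ x ∈ H3, ∃ w : W, (bb w).mat *ᵥ x ∈ Cusp

/-- MODULE M1 -/
def StM1 : Prop := ∀ σ : G, σ * σ = 1 →
  MeasurePreserving (fun g : G => g * σ) (Measure.haar : Measure G) Measure.haar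
/-- MODULE M2 (scaling trick) -/
def StM2 : Prop := (Measure.haar : Measure G) {g : G | (g⁻¹).mat *ᵥ e0 ∈ Cusp} < ⊤

/-- a homomorphism to `G` with finite balls -/
def FinBalls {Γ : Type} [Group Γ] (a : Γ →* G) : Prop :=
  ∀ R : ℝ, {γ : Γ | ∀ i j, |(a γ).mat i j| ≤ R}.Finite

/-- MODULE F1 (strict Borel fundamental domain) -/
def StF1 : Prop := ∀ (Γ : Type) [Group Γ] (a : Γ →* G), Function.Injective a → FinBalls a →
  ∃ D : Set G, MeasurableSet D ∧ ∀ g : G, ∃! γ : Γ, a γ * g ∈ D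

/-- the inclusion of a subgroup of Lorentz matrices into `G` -/
def incl (H : Subgroup (Matrix (Fin 4) (Fin 4) ℝ)ˣ)
    (hH : ∀ g ∈ H,
      Matrix.transpose (g : Matrix (Fin 4) (Fin 4) ℝ) * Matrix.diagonal (![1, 1, 1, -1] : Fin 4 → ℝ)
          * (g : Matrix (Fin 4) (Fin 4) ℝ) = Matrix.diagonal (![1, 1, 1, -1] : Fin 4 → ℝ)
        ∧ 0 < (g : Matrix (Fin 4) (Fin 4) ℝ) 3 3) : H →* G where
  toFun h := ⟨((h : (Matrix (Fin 4) (Fin 4) ℝ)ˣ) : Matrix (Fin 4) (Fin 4) ℝ), hH h h.2⟩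
  map_one' := rfl
  map_mul' _ _ := rfl

/-- MODULE F2 -/
def StF2 : Prop := ∀ (H : Subgroup (Matrix (Fin 4) (Fin 4) ℝ)ˣ)
    (hH : ∀ g ∈ H,
      Matrix.transpose (g : Matrix (Fin 4) (Fin 4) ℝ) * Matrix.diagonal (![1, 1, 1, -1] : Fin 4 → ℝ)
          * (g : Matrix (Fin 4) (Fin 4) ℝ) = Matrix.diagonal (![1, 1, 1, -1] : Fin 4 → ℝ)
        ∧ 0 < (g : Matrix (Fin 4) (Fin 4) ℝ) 3 3),
    DiscreteTopology
      ((fun g : (Matrix (Fin 4) (Fin 4) ℝ)ˣ => (g : Matrix (Fin 4) (Fin 4) ℝ)) ''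
        (H : Set (Matrix (Fin 4) (Fin 4) ℝ)ˣ)) →
    Function.Injective (incl H hH) ∧ FinBalls (incl H hH)

/-- MODULE F3: finite balls for `W` (from T1, T2) -/
def StF3 : Prop := FinBalls bb

/-- MODULE I (induction, abstract) -/
def StI : Prop := ∀ (Γ W' : Type) [Group Γ] [Countable Γ] [Group W'] [Countable W']
  (G' : Type) [Group G'] [MeasurableSpace G'] [StandardBorelSpace G'] [MeasurableMul₂ G']
  [MeasurableInv G']
  (a : Γ →* G') (b : W' →* G') (m : Measure G') [SigmaFinite m]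
  (D F : Set G') (X₀ : Type) [MeasurableSpace X₀] [StandardBorelSpace X₀] (μ₀ : Measure X₀)
  [IsProbabilityMeasure μ₀] [MulAction W' X₀],
  (∀ γ : Γ, MeasurePreserving (fun g : G' => a γ * g) m m) →
  (∀ w : W', MeasurePreserving (fun g : G' => g * b w) m m) →
  MeasurableSet D → (∀ g : G', ∃! γ : Γ, a γ * g ∈ D) →
  MeasurableSet F → (∀ g : G', ∃! w : W', b w * g⁻¹ ∈ F) →
  m {g | g⁻¹ ∈ F} ≠ 0 → m {g | g⁻¹ ∈ F} ≠ ⊤ →
  (∀ w : W', MeasurePreserving (fun x : X₀ => w • x) μ₀ μ₀) →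
  (∀ (x : X₀) (w : W'), w • x = x → w = 1) →
  Nonempty (ATSys W' X₀) → AlmTree Γ

end Pool.Agent.AT
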