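import Pool.Agent.AT.Geo2
import Pool.Agent.Helper219.AT.Tits

/-! Residual finiteness of `W`: an injective homomorphism to `∏ GL₄(ZMod (n+2))`
(helper219, with the Tits lemma of helper36). Also `StT1` and `StT2`. -/

open MeasureTheory Matrix

namespace Pool.Agent.AT

/-- integral root -/
def irt (s : V) : Fin 4 → ℤ :=
  ![if s 0 then 1 else -1, if s 1 then 1 else -1, if s 2 then 1 else -1, 1]

/-- integral reflection matrix -/
def iM (s : V) : Matrix (Fin 4) (Fin 4) ℤ :=
  Matrix.of fun i j => (if i = j then 1 else 0) -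
    irt s i * (if j = 3 then - irt s j else irt s j)

theorem irt_cast (s : V) (i : Fin 4) : ((irt s i : ℤ) : ℝ) = root s i := by
  fin_cases i <;> simp [irt, root, sg]

/-- the cast ring homomorphism on matrices -/
noncomputable def castM : Matrix (Fin 4) (Fin 4) ℤ →+* Matrix (Fin 4) (Fin 4) ℝ :=
  (Int.castRingHom ℝ).mapMatrix

theorem castM_apply (A : Matrix (Fin 4) (Fin 4) ℤ) (i j : Fin 4) :
    castM A i j = ((A i j : ℤ) : ℝ) := rfl

theorem castM_inj : Function.Injective castM := by
  intro A B h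
  ext i j
  have := congrFun (congrFun h i) j
  rw [castM_apply, castM_apply] at this
  exact_mod_cast this

theorem castM_iM (s : V) : castM (iM s) = reflMat s := by
  ext i j
  rw [castM_apply]
  unfold iM reflMat
  simp only [Matrix.of_apply]
  rw [← irt_cast s i, ← irt_cast s j]
  split_ifs <;> push_cast <;> ring

theorem iM_sq (s : V) : iM s * iM s = 1 := by
  apply castM_inj
  rw [map_mul, castM_iM, map_one]
  exact congrArg G.mat (refl_sq s)

theorem iM_comm (s t : V) (h : hammingDist s t = 1) : iM s * iM t = iM t * iM s := by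
  apply castM_inj
  rw [map_mul, map_mul, castM_iM, castM_iM]
  exact congrArg G.mat (refl_comm s t h)

theorem iM_lift : cubeM.IsLiftable iM := by
  intro s t
  by_cases h : s = t
  · subst h
    have hM : cubeM.M s s = 1 := by simp [cubeM]
    rw [hM, pow_one, iM_sq]
  · by_cases h1 : hammingDist s t = 1
    · have hM : cubeM.M s t = 2 := by simp [cubeM, h, h1]
      rw [hM, pow_two]
      calc iM s * iM t * (iM s * iM t) = iM s * iM t * (iM t * iM s) := by rw [iM_comm s t h1]
        _ = iM s * (iM t * iM t) * iM s := by simp only [mul_assoc]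
        _ = 1 := by rw [iM_sq, mul_one, iM_sq]
    · have hM : cubeM.M s t = 0 := by simp [cubeM, h, h1]
      rw [hM, pow_zero]

/-- the integral representation -/
noncomputable def iR : W →* Matrix (Fin 4) (Fin 4) ℤ := cs.lift ⟨iM, iM_lift⟩

theorem iR_gen (s : V) : iR (gen s) = iM s := by
  unfold iR gen
  exact cs.lift_apply_simple iM_lift s

theorem castM_iR (w : W) : castM (iR w) = (bb w).mat := by
  refine cs.simple_induction_left (p := fun w => castM (iR w) = (bb w).mat) w ?_ ?_
  · show castM (iR 1) = (bb 1).mat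
    rw [map_one, map_one, map_one]; rfl
  · intro w s ih
    show castM (iR (gen s * w)) = (bb (gen s * w)).mat
    have ih' : castM (iR w) = (bb w).mat := ih
    rw [map_mul, map_mul, map_mul, iR_gen, castM_iM, bb_gen, ih']
    rfl

/-- MODULE T2 -/
theorem stT2 : StT2 := by
  intro w i j
  refine ⟨iR w i j, ?_⟩
  rw [← castM_iR, castM_apply]

open Helper219.AT.H36T in
theorem tits_apply : ∀ w : W, (lor ((bb w).mat *ᵥ e0) ((bb w).mat *ᵥ e0) = -1 ∧
      0 < ((bb w).mat *ᵥ e0) 3) ∧
      ∀ s : V, (cs.IsLeftDescent w s → 0 < lor ((bb w).mat *ᵥ e0) (root s)) ∧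
        (¬ cs.IsLeftDescent w s → lor ((bb w).mat *ᵥ e0) (root s) < 0) := by
  apply tits cs root (fun w => (bb w).mat *ᵥ e0)
  · show (bb 1).mat *ᵥ e0 = _
    rw [map_one]
    show (1 : Matrix (Fin 4) (Fin 4) ℝ) *ᵥ e0 = _
    rw [Matrix.one_mulVec]; rfl
  · intro s w
    show (bb (gen s * w)).mat *ᵥ e0 = _
    rw [map_mul, bb_gen]
    show (reflMat s * (bb w).mat) *ᵥ e0 = _
    rw [← Matrix.mulVec_mulVec]
    generalize (bb w).mat *ᵥ e0 = y
    ext i
    simp only [Matrix.mulVec, dotProduct, Fin.sum_univ_four, reflMat, Matrix.of_apply,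
      Pi.sub_apply, Pi.smul_apply, smul_eq_mul, lor]
    fin_cases i <;> simp [root] <;> ring
  · intro s; simp [root, pow_two, sg_sq]
  · intro s; simp [root, pow_two, sg_sq]
  · intro s; simp [root, pow_two, sg_sq]
  · intro s; simp [root]
  · intro s t hst
    have hcases : hammingDist s t = 1 ∨ 2 ≤ hammingDist s t := by
      have : hammingDist s t ≠ 0 := by
        intro h; exact hst (hammingDist_eq_zero.1 h)
      omega
    rcases hcases with h1 | h2
    · left
      constructor
      · have hM : cubeM.M s t = 2 := by simp [cubeM, hst, h1]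
        have h3 : (cs.simple s * cs.simple t) ^ cubeM.M s t = 1 := cs.simple_mul_simple_pow s t
        rw [hM, pow_two] at h3
        have h4 := eq_inv_of_mul_eq_one_left h3
        rw [_root_.mul_inv_rev, cs.inv_simple, cs.inv_simple] at h4
        exact h4
      · have := sg_ham s t h1
        simp [lor, root]; linarith
    · right
      have key : ∀ s t : V, 2 ≤ hammingDist s t →
          (s 0 = (!t 0) ∧ s 1 = (!t 1)) ∨ (s 0 = (!t 0) ∧ s 2 = (!t 2)) ∨
          (s 1 = (!t 1) ∧ s 2 = (!t 2)) := by decide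
      rcases key s t h2 with ⟨a, b⟩ | ⟨a, b⟩ | ⟨a, b⟩ <;>
        simp only [lor, root, Matrix.cons_val_zero, Matrix.cons_val_one, Matrix.cons_val] <;>
        rw [a, b] <;>
        cases s 0 <;> cases s 1 <;> cases s 2 <;> cases t 0 <;> cases t 1 <;> cases t 2 <;>
        norm_num [sg]

/-- MODULE T1 -/
theorem stT1 : StT1 := by
  rw [StT1, injective_iff_map_eq_one]
  intro w hw
  by_contra hne
  obtain ⟨s, hs⟩ := cs.exists_leftDescent_of_ne_one hne
  have h := ((tits_apply w).2 s).1 hs
  rw [hw] at h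
  have e : (1 : G).mat *ᵥ e0 = e0 := by
    show (1 : Matrix (Fin 4) (Fin 4) ℝ) *ᵥ e0 = e0
    rw [Matrix.one_mulVec]
  rw [e] at h
  simp [Helper219.AT.H36T.lor, e0, root] at h
  linarith

/-- reduction of the integral representation modulo `n + 2` -/
noncomputable def rf : W →* (∀ n : ℕ, GL (Fin 4) (ZMod (n + 2))) :=
  MonoidHom.pi fun n =>
    MonoidHom.toHomUnits
      (((Int.castRingHom (ZMod (n + 2))).mapMatrix (m := Fin 4)).toMonoidHom.comp iR)

theorem rf_apply (w : W) (n : ℕ) (i j : Fin 4) :
    ((rf w n : GL (Fin 4) (ZMod (n + 2))) : Matrix (Fin 4) (Fin 4) (ZMod (n + 2))) i j =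
      ((iR w i j : ℤ) : ZMod (n + 2)) := rfl

theorem rf_injective : Function.Injective rf := by
  rw [injective_iff_map_eq_one]
  intro w hw
  have h1 : iR w = 1 := by
    ext i j
    have hz : ∀ n : ℕ, (((iR w i j - (1 : Matrix (Fin 4) (Fin 4) ℤ) i j : ℤ)) : ZMod (n + 2)) = 0 := by
      intro n
      have e1 : ((iR w i j : ℤ) : ZMod (n + 2)) =
          (1 : Matrix (Fin 4) (Fin 4) (ZMod (n + 2))) i j := by
        rw [← rf_apply, hw]; rfl
      have e2 : (((1 : Matrix (Fin 4) (Fin 4) ℤ) i j : ℤ) : ZMod (n + 2)) =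
          (1 : Matrix (Fin 4) (Fin 4) (ZMod (n + 2))) i j := by
        rw [Matrix.one_apply, Matrix.one_apply]; split_ifs <;> simp
      push_cast
      rw [e1, e2, sub_self]
    set d := iR w i j - (1 : Matrix (Fin 4) (Fin 4) ℤ) i j with hd
    have hdz : d = 0 := by
      have h2 := hz d.natAbs
      rw [ZMod.intCast_zmod_eq_zero_iff_dvd] at h2
      apply Int.eq_zero_of_abs_lt_dvd h2
      rw [Int.abs_eq_natAbs]
      push_cast
      omega
    linarith
  apply stT1
  apply G.ext
  rw [← castM_iR, h1, map_one, map_one]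
  rfl

end Pool.Agent.AT
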