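import Pool.Agent.AT.Geo2

/-! Modules T2 and T3 of S02495 (integral entries, cover by cusp regions), helper489. -/

open MeasureTheory Matrix

namespace Pool.Agent.AT

lemma reflMat_int (s : V) (i j : Fin 4) : ∃ n : ℤ, reflMat s i j = n := by
  have hsg : ∀ b : Bool, ∃ n : ℤ, sg b = n := by
    intro b
    cases b
    · exact ⟨-1, by simp [sg]⟩
    · exact ⟨1, by simp [sg]⟩
  have hroot : ∀ i : Fin 4, ∃ n : ℤ, root s i = n := by
    intro i
    fin_cases i
    · exact hsg (s 0)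
    · exact hsg (s 1)
    · exact hsg (s 2)
    · exact ⟨1, by simp [root]⟩
  obtain ⟨a, ha⟩ := hroot i
  obtain ⟨b, hb⟩ := hroot j
  refine ⟨(if i = j then 1 else 0) - a * (if j = 3 then - b else b), ?_⟩
  simp only [reflMat, Matrix.of_apply, ha, hb]
  split_ifs <;> push_cast <;> ring

theorem stT2 : StT2 := by
  intro w
  refine cs.simple_induction_left
    (p := fun w => ∀ (i j : Fin 4), ∃ n : ℤ, (bb w).mat i j = n) w ?_ ?_
  · intro i j
    rw [map_one, G.mat_one, Matrix.one_apply]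
    by_cases h : i = j
    · exact ⟨1, by simp [h]⟩
    · exact ⟨0, by simp [h]⟩
  · intro w s ih i j
    have h1 : bb (cs.simple s * w) = refl s * bb w := by
      rw [map_mul]
      congr 1
      exact bb_gen s
    rw [h1, G.mat_mul, Matrix.mul_apply]
    have h2 : ∀ k, ∃ n : ℤ, (refl s).mat i k * (bb w).mat k j = n := by
      intro k
      obtain ⟨a, ha⟩ := reflMat_int s i k
      obtain ⟨b, hb⟩ := ih k j
      have ha' : (refl s).mat i k = a := ha
      exact ⟨a * b, by rw [ha', hb]; push_cast; ring⟩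
    choose f hf using h2
    refine ⟨∑ k, f k, ?_⟩
    push_cast
    exact Finset.sum_congr rfl (fun k _ => hf k)

lemma form_eq (x y : Fin 4 → ℝ) : form x y = x ⬝ᵥ (J *ᵥ y) := by
  simp [form, J, dotProduct, Fin.sum_univ_four, Matrix.mulVec_diagonal]
  ring

lemma form_mulVec (A : G) (x y : Fin 4 → ℝ) : form (A.mat *ᵥ x) (A.mat *ᵥ y) = form x y := by
  rw [form_eq, form_eq]
  rw [← Matrix.vecMul_transpose A.mat x, ← Matrix.dotProduct_mulVec, Matrix.mulVec_mulVec,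
    Matrix.mulVec_mulVec, G.lor]

/-- lower bound for the time coordinate -/
lemma time_bound (A : G) (x : Fin 4 → ℝ) (hx : x ∈ H3) :
    A.mat 3 3 / (2 * x 3) ≤ (A.mat *ᵥ x) 3 := by
  obtain ⟨h1, h2⟩ := hx
  have hr := lor_row A.lor
  have hp := A.pos
  have ht : x 3 ^ 2 = 1 + (x 0 ^ 2 + x 1 ^ 2 + x 2 ^ 2) := by
    unfold form at h1
    nlinarith
  have hm : (A.mat *ᵥ x) 3 = A.mat 3 0 * x 0 + A.mat 3 1 * x 1 + A.mat 3 2 * x 2
      + A.mat 3 3 * x 3 := by
    simp [Matrix.mulVec, dotProduct, Fin.sum_univ_four]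
  rw [hm]
  set p := A.mat 3 0
  set q := A.mat 3 1
  set r := A.mat 3 2
  set n := A.mat 3 3
  set t := x 3
  obtain ⟨u, hu⟩ : ∃ u, u = n / (2 * t) := ⟨_, rfl⟩
  have hnu : n = 2 * t * u := by
    rw [hu]
    field_simp
  have hupos : 0 < u := by
    rw [hu]
    positivity
  rw [← hu]
  by_contra hcon
  push Not at hcon
  set S := p * x 0 + q * x 1 + r * x 2 with hS
  have hcs : S ^ 2 ≤ (p ^ 2 + q ^ 2 + r ^ 2) * (x 0 ^ 2 + x 1 ^ 2 + x 2 ^ 2) := by
    rw [hS]
    nlinarith [sq_nonneg (p * x 1 - q * x 0), sq_nonneg (p * x 2 - r * x 0),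
      sq_nonneg (q * x 2 - r * x 1)]
  have e1 : p ^ 2 + q ^ 2 + r ^ 2 = n ^ 2 - 1 := by linarith
  have e2 : x 0 ^ 2 + x 1 ^ 2 + x 2 ^ 2 = t ^ 2 - 1 := by linarith
  have ht1 : 1 ≤ t ^ 2 := by nlinarith [sq_nonneg (x 0), sq_nonneg (x 1), sq_nonneg (x 2)]
  rw [e1, e2] at hcs
  have h3 : S ^ 2 ≤ n ^ 2 * (t ^ 2 - 1) := by nlinarith
  rw [hnu] at h3 hcon
  have h4 : u * (2 * t ^ 2 - 1) < - S := by nlinarith
  have h5 : 0 ≤ u * (2 * t ^ 2 - 1) := mul_nonneg hupos.le (by linarith)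
  have h6 : (u * (2 * t ^ 2 - 1)) ^ 2 < (- S) ^ 2 := by
    apply pow_lt_pow_left₀ h4 h5
    norm_num
  nlinarith [sq_nonneg u]

lemma mem_H3 (A : G) (x : Fin 4 → ℝ) (hx : x ∈ H3) : A.mat *ᵥ x ∈ H3 := by
  refine ⟨by rw [form_mulVec]; exact hx.1, ?_⟩
  refine lt_of_lt_of_le ?_ (time_bound A x hx)
  have := A.pos
  have := hx.2
  positivity

lemma refl_time (s : V) (y : Fin 4 → ℝ) :
    ((refl s).mat *ᵥ y) 3 = y 3 - form y (root s) := by
  have h : (refl s).mat = reflMat s := rfl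
  rw [h]
  simp [Matrix.mulVec, dotProduct, Fin.sum_univ_four, reflMat, root, form]
  ring

/-- a point of the orbit with minimal time coordinate -/
lemma exists_min (x : Fin 4 → ℝ) (hx : x ∈ H3) :
    ∃ w : W, ∀ w' : W, ((bb w).mat *ᵥ x) 3 ≤ ((bb w').mat *ᵥ x) 3 := by
  have hx3 := hx.2
  set Sx : Set (Fin 4 → ℤ) := {r | ∃ w : W, (∀ j, (bb w).mat 3 j = r j) ∧
    ((bb w).mat *ᵥ x) 3 ≤ x 3} with hSx
  have hfin : Sx.Finite := by
    set K : ℤ := ⌈2 * x 3 ^ 2⌉ with hK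
    refine Set.Finite.subset
      (Fintype.piFinset (fun _ : Fin 4 => Finset.Icc (-K) K)).finite_toSet ?_
    rintro r ⟨w, hr, hle⟩
    have h1 := time_bound (bb w) x hx
    have h2 : (bb w).mat 3 3 ≤ 2 * x 3 ^ 2 := by
      have h3 := h1.trans hle
      rw [div_le_iff₀ (by positivity)] at h3
      nlinarith
    have h4 := lor_row (bb w).lor
    have hp := (bb w).pos
    have h5 : ∀ j, |(bb w).mat 3 j| ≤ (bb w).mat 3 3 := by
      intro j
      apply abs_le_of_sq_le_sq _ hp.le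
      fin_cases j
      · show (bb w).mat 3 0 ^ 2 ≤ _
        nlinarith [sq_nonneg ((bb w).mat 3 0), sq_nonneg ((bb w).mat 3 1),
          sq_nonneg ((bb w).mat 3 2)]
      · show (bb w).mat 3 1 ^ 2 ≤ _
        nlinarith [sq_nonneg ((bb w).mat 3 0), sq_nonneg ((bb w).mat 3 1),
          sq_nonneg ((bb w).mat 3 2)]
      · show (bb w).mat 3 2 ^ 2 ≤ _
        nlinarith [sq_nonneg ((bb w).mat 3 0), sq_nonneg ((bb w).mat 3 1),
          sq_nonneg ((bb w).mat 3 2)]
      · exact le_rfl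
    rw [Finset.mem_coe, Fintype.mem_piFinset]
    intro j
    rw [Finset.mem_Icc]
    have h6 : |(r j : ℝ)| ≤ (K : ℝ) := by
      rw [← hr j]
      exact (h5 j).trans (h2.trans (Int.le_ceil _))
    rw [abs_le] at h6
    constructor
    · exact_mod_cast h6.1
    · exact_mod_cast h6.2
  have hrow : ∀ w : W, ∃ r : Fin 4 → ℤ, ∀ j, (bb w).mat 3 j = r j := by
    intro w
    have h := fun j => stT2 w 3 j
    choose r hr using h
    exact ⟨r, hr⟩
  have hval : ∀ (w : W) (r : Fin 4 → ℤ), (∀ j, (bb w).mat 3 j = r j) →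
      ((bb w).mat *ᵥ x) 3 = ∑ j, (r j : ℝ) * x j := by
    intro w r hr
    show ∑ j, (bb w).mat 3 j * x j = _
    exact Finset.sum_congr rfl (fun j _ => by rw [hr j])
  have hne : Sx.Nonempty := by
    obtain ⟨r, hr⟩ := hrow 1
    refine ⟨r, 1, hr, ?_⟩
    rw [map_one, G.mat_one, Matrix.one_mulVec]
  obtain ⟨r0, ⟨w0, hw0, hle0⟩, hmin⟩ :=
    Set.exists_min_image Sx (fun r => ∑ j, (r j : ℝ) * x j) hfin hne
  refine ⟨w0, fun w' => ?_⟩
  by_cases hcase : ((bb w').mat *ᵥ x) 3 ≤ x 3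
  · obtain ⟨r, hr⟩ := hrow w'
    have := hmin r ⟨w', hr, hcase⟩
    rw [hval w0 r0 hw0, hval w' r hr]
    exact this
  · push Not at hcase
    exact hle0.trans hcase.le

lemma sg_abs (t : ℝ) : ∃ b : Bool, sg b * t = |t| := by
  by_cases h : 0 ≤ t
  · exact ⟨true, by simp [sg, abs_of_nonneg h]⟩
  · push Not at h
    exact ⟨false, by simp [sg, abs_of_neg h]⟩

lemma cusp_arith (v m a b : ℝ) (hm : 0 ≤ m) (ha : |a| ≤ m) (hb : |b| ≤ m)
    (hab : |a| + |b| ≤ v) (h : (v + m) ^ 2 = m ^ 2 + 1 + a ^ 2 + b ^ 2) : v ≤ 1 := by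
  have ha0 := abs_nonneg a
  have hb0 := abs_nonneg b
  have ha2 := sq_abs a
  have hb2 := sq_abs b
  by_contra hcon
  push Not at hcon
  nlinarith [mul_le_mul_of_nonneg_left ha ha0, mul_le_mul_of_nonneg_left hb hb0,
    mul_le_mul_of_nonneg_left hab hm]

theorem stT3 : StT3 := by
  intro x hx
  obtain ⟨w, hw⟩ := exists_min x hx
  refine ⟨w, ?_⟩
  have hy := mem_H3 (bb w) x hx
  set y := (bb w).mat *ᵥ x with hydef
  have hneg : ∀ s : V, form y (root s) ≤ 0 := by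
    intro s
    have h1 := hw (gen s * w)
    have h2 : (bb (gen s * w)).mat *ᵥ x = (refl s).mat *ᵥ y := by
      rw [map_mul, bb_gen, G.mat_mul, ← Matrix.mulVec_mulVec]
    rw [h2, refl_time] at h1
    linarith
  obtain ⟨b0, hb0⟩ := sg_abs (y 0)
  obtain ⟨b1, hb1⟩ := sg_abs (y 1)
  obtain ⟨b2, hb2⟩ := sg_abs (y 2)
  have hsum : |y 0| + |y 1| + |y 2| ≤ y 3 := by
    have h1 := hneg ![b0, b1, b2]
    simp [form, root] at h1
    rw [mul_comm (y 0), mul_comm (y 1), mul_comm (y 2), hb0, hb1, hb2] at h1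
    linarith
  have hq : y 3 ^ 2 = y 0 ^ 2 + 1 + y 1 ^ 2 + y 2 ^ 2 := by
    have := hy.1
    unfold form at this
    nlinarith
  have hsg : ∀ t : ℝ, ∃ e : ℝ, (e = 1 ∨ e = -1) ∧ e * t = |t| := by
    intro t
    by_cases h : 0 ≤ t
    · exact ⟨1, Or.inl rfl, by rw [one_mul, abs_of_nonneg h]⟩
    · push Not at h
      exact ⟨-1, Or.inr rfl, by rw [abs_of_neg h]; ring⟩
  refine ⟨hy, ?_⟩
  have key : ∃ i : Fin 3, |y i.castSucc| = max (max |y 0| |y 1|) |y 2| := by
    rcases le_total |y 0| |y 1| with h | h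
    · rcases le_total |y 1| |y 2| with h' | h'
      · refine ⟨2, ?_⟩
        show |y 2| = _
        rw [max_eq_right h, max_eq_right h']
      · refine ⟨1, ?_⟩
        show |y 1| = _
        rw [max_eq_right h, max_eq_left h']
    · rcases le_total |y 0| |y 2| with h' | h'
      · refine ⟨2, ?_⟩
        show |y 2| = _
        rw [max_eq_left h, max_eq_right h']
      · refine ⟨0, ?_⟩
        show |y 0| = _
        rw [max_eq_left h, max_eq_left h']
  have hs0 := sq_abs (y 0)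
  have hs1 := sq_abs (y 1)
  have hs2 := sq_abs (y 2)
  have l0 : |y 0| ≤ max (max |y 0| |y 1|) |y 2| := le_max_of_le_left (le_max_left _ _)
  have l1 : |y 1| ≤ max (max |y 0| |y 1|) |y 2| := le_max_of_le_left (le_max_right _ _)
  have l2 : |y 2| ≤ max (max |y 0| |y 1|) |y 2| := le_max_right _ _
  obtain ⟨i, hi⟩ := key
  obtain ⟨e, he, het⟩ := hsg (y i.castSucc)
  refine ⟨i, e, he, ?_, ?_⟩
  · rw [het]
    have : (∑ j : Fin 3, |y j.castSucc|) = |y 0| + |y 1| + |y 2| := by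
      rw [Fin.sum_univ_three]
      rfl
    rw [this]
    linarith
  · rw [het]
    rw [← hi] at l0 l1 l2
    fin_cases i
    · have l1' : |y 1| ≤ |y 0| := l1
      have l2' : |y 2| ≤ |y 0| := l2
      show y 3 - |y 0| ≤ 1
      exact cusp_arith (y 3 - |y 0|) (|y 0|) (y 1) (y 2) (abs_nonneg _) l1' l2' (by linarith)
        (by rw [sub_add_cancel, hs0]; linarith)
    · have l1' : |y 0| ≤ |y 1| := l0
      have l2' : |y 2| ≤ |y 1| := l2
      show y 3 - |y 1| ≤ 1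
      exact cusp_arith (y 3 - |y 1|) (|y 1|) (y 0) (y 2) (abs_nonneg _) l1' l2' (by linarith)
        (by rw [sub_add_cancel, hs1]; linarith)
    · have l1' : |y 0| ≤ |y 2| := l0
      have l2' : |y 1| ≤ |y 2| := l1
      show y 3 - |y 2| ≤ 1
      exact cusp_arith (y 3 - |y 2|) (|y 2|) (y 0) (y 1) (abs_nonneg _) l1' l2' (by linarith)
        (by rw [sub_add_cancel, hs2]; linarith)

end Pool.Agent.AT
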