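import Mathlib

set_option autoImplicit false

namespace Pool.Agent.AT633

/-- Abstract Tits lemma for right-angled Coxeter groups acting on a set with wall functions `f`. -/
theorem tits {B W C : Type*} [Group W] {M : CoxeterMatrix B} (cs : CoxeterSystem M W)
    [MulAction W C] (f : B → C → ℝ)
    (hM : ∀ s t, s ≠ t → M s t = 2 ∨ M s t = 0)
    (h1 : ∀ s x, f s (cs.simple s • x) = - f s x)
    (h2 : ∀ s t x, s ≠ t → M s t = 2 → f t (cs.simple s • x) = f t x)
    (h3 : ∀ s t x, s ≠ t → M s t = 0 → f s x < 0 → f t (cs.simple s • x) < 0)
    (x0 : C) (h0 : ∀ s, f s x0 < 0) :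
    ∀ n : ℕ, ∀ w : W, cs.length w = n → ∀ s,
      (cs.IsLeftDescent w s → 0 < f s (w • x0)) ∧ (¬ cs.IsLeftDescent w s → f s (w • x0) < 0) := by
  intro n
  induction n using Nat.strong_induction_on with
  | _ n ih =>
    intro w hw
    -- the descent part
    have hdesc : ∀ s, cs.IsLeftDescent w s → f s ((cs.simple s * w) • x0) < 0 := by
      intro s hs
      have hlt : cs.length (cs.simple s * w) < n := hw ▸ hs
      refine (ih _ hlt _ rfl s).2 ?_
      exact (cs.isLeftDescent_iff_not_isLeftDescent_mul).1 hs
    have hback : ∀ s, cs.simple s • ((cs.simple s * w) • x0) = w • x0 := by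
      intro s
      rw [smul_smul, cs.simple_mul_simple_cancel_left]
    intro t
    constructor
    · intro ht
      have h := hdesc t ht
      rw [← hback t, h1]
      linarith
    · intro ht
      by_cases hw1 : w = 1
      · subst hw1
        simpa using h0 t
      · obtain ⟨s, hs⟩ := cs.exists_leftDescent_of_ne_one hw1
        have hst : s ≠ t := by
          rintro rfl
          exact ht hs
        have hlt : cs.length (cs.simple s * w) < n := hw ▸ hs
        rcases hM s t hst with h | h
        · rw [← hback s, h2 s t _ hst h]
          refine (ih _ hlt _ rfl t).2 ?_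
          intro hd
          apply ht
          -- t descent of s w; then t descent of w
          unfold CoxeterSystem.IsLeftDescent at hd ⊢
          have hcomm : cs.simple t * cs.simple s = cs.simple s * cs.simple t := by
            have hp := cs.simple_mul_simple_pow s t
            rw [h, pow_two] at hp
            have hss := cs.simple_mul_simple_self s
            have htt := cs.simple_mul_simple_self t
            have e1 : (cs.simple s * cs.simple t)⁻¹ = cs.simple s * cs.simple t :=
              inv_eq_of_mul_eq_one_left hp
            rw [mul_inv_rev, cs.inv_simple, cs.inv_simple] at e1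
            exact e1
          have e2 : cs.simple t * (cs.simple s * w) = cs.simple s * (cs.simple t * w) := by
            rw [← mul_assoc, hcomm, mul_assoc]
          rw [e2] at hd
          have hs' : cs.length (cs.simple s * w) + 1 = cs.length w :=
            (cs.isLeftDescent_iff).1 hs
          rcases cs.length_simple_mul (cs.simple t * w) s with h5 | h5
          · omega
          · omega
        · rw [← hback s]
          exact h3 s t _ hst h (hdesc s hs)

/-- Consequence: if `w • x0 = x0` (or just the signs agree) then `w = 1`. -/
theorem eq_one_of_signs {B W C : Type*} [Group W] {M : CoxeterMatrix B} (cs : CoxeterSystem M W)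
    [MulAction W C] (f : B → C → ℝ)
    (hM : ∀ s t, s ≠ t → M s t = 2 ∨ M s t = 0)
    (h1 : ∀ s x, f s (cs.simple s • x) = - f s x)
    (h2 : ∀ s t x, s ≠ t → M s t = 2 → f t (cs.simple s • x) = f t x)
    (h3 : ∀ s t x, s ≠ t → M s t = 0 → f s x < 0 → f t (cs.simple s • x) < 0)
    (x0 : C) (h0 : ∀ s, f s x0 < 0) (w : W) (hw : ∀ s, f s (w • x0) ≤ 0) : w = 1 := by
  by_contra hne
  obtain ⟨s, hs⟩ := cs.exists_leftDescent_of_ne_one hne
  have := (tits cs f hM h1 h2 h3 x0 h0 _ w rfl s).1 hs
  have := hw s
  linarith

end Pool.Agent.AT633
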