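import Pool.Agent.AT.Defs

/-!
Module C1 for S02495: the graph `TG N q` is acyclic.
-/

set_option autoImplicit false

namespace Pool.Agent.AT.TAc

open Pool.Agent.AT

/-! ### basic formulas -/

lemma stt_gen (q : Bool × Bool × ℤ) (s : V) (w : W) :
    stt q (gen s * w) = step ℤ s (stt q w) := by
  unfold stt
  rw [map_mul, Equiv.Perm.mul_apply, θ_gen]

lemma gen_gen (s : V) (w : W) : gen s * (gen s * w) = w := by
  unfold gen
  exact cs.simple_mul_simple_cancel_left s

lemma gen_comm (s t : V) (h : hammingDist s t = 1) (w : W) :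
    gen s * (gen t * w) = gen t * (gen s * w) := by
  have hne : s ≠ t := by
    rintro rfl
    simp at h
  have h2 := cs.simple_mul_simple_pow s t
  have hM : cubeM.M s t = 2 := by simp [cubeM, hne, h]
  rw [hM, pow_two] at h2
  have h3 : cs.simple s * cs.simple t = (cs.simple s * cs.simple t)⁻¹ := eq_inv_of_mul_eq_one_left h2
  have h4 : cs.simple s * cs.simple t = cs.simple t * cs.simple s := by
    rw [h3, mul_inv_rev, cs.inv_simple, cs.inv_simple]
  unfold gen
  rw [← mul_assoc, h4, mul_assoc]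

/-- is `s` ascending at `w`? -/
noncomputable def up (q : Bool × Bool × ℤ) (w : W) (s : V) : Bool :=
  asc (stt q w).1 (stt q w).2.1 s

lemma ht_gen (q : Bool × Bool × ℤ) (s : V) (w : W) :
    ht q (gen s * w) = ht q w + if up q w s then 1 else -1 := by
  unfold ht up
  rw [stt_gen]
  rfl

lemma asc_flip (a b : Bool) (s : V) :
    asc (if ev s then !a else a) (if ev s then b else !b) s = !asc a b s := by
  revert a b s; decide

lemma asc_flip' (a b : Bool) (s t : V) (h : hammingDist s t = 1) :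
    asc (if ev t then !a else a) (if ev t then b else !b) s = asc a b s := by
  revert a b s t; decide

lemma up_gen_self (q : Bool × Bool × ℤ) (s : V) (w : W) :
    up q (gen s * w) s = !up q w s := by
  unfold up
  rw [stt_gen]
  exact asc_flip _ _ s

lemma up_gen (q : Bool × Bool × ℤ) (s t : V) (h : hammingDist s t = 1) (w : W) :
    up q (gen t * w) s = up q w s := by
  unfold up
  rw [stt_gen]
  exact asc_flip' _ _ s t h

/-! ### the cocycle -/

/-- position in a path -/
noncomputable def pidx (p : Fin 4 → V) (s : V) : Fin 4 :=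
  if p 0 = s then 0 else if p 1 = s then 1 else if p 2 = s then 2 else 3

lemma pidx_eq (p : Fin 4 → V) (hp : Function.Injective p) (i : Fin 4) : pidx p (p i) = i := by
  unfold pidx
  fin_cases i
  · simp
  · simp [hp.eq_iff]
  · simp [hp.eq_iff]
  · simp [hp.eq_iff]

/-- partial sums -/
def psum (f : Fin 3 → ZMod 2) (i : Fin 4) : ZMod 2 :=
  ![0, f 0, f 0 + f 1, f 0 + f 1 + f 2] i

lemma psum_succ (f : Fin 3 → ZMod 2) (i : Fin 3) :
    psum f i.succ = psum f i.castSucc + f i := by
  fin_cases i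
  · simp [psum]
  · simp [psum]
  · simp [psum]

/-- recursive definition of the cocycle above (or below) the critical level -/
noncomputable def CC (p : W → Fin 4 → V) (base : W → V → ZMod 2) : ℕ → W → V → ZMod 2
  | 0 => base
  | m + 1 => fun u s => psum (fun i : Fin 3 =>
      CC p base m (gen (p u i.castSucc) * u) (p u i.succ) +
      CC p base m (gen (p u i.succ) * u) (p u i.castSucc)) (pidx (p u) s)

lemma CC_succ (p : W → Fin 4 → V) (base : W → V → ZMod 2) (m : ℕ) (u : W)
    (hp : Function.Injective (p u)) (i : Fin 3) :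
    CC p base (m + 1) u (p u i.succ) = CC p base (m + 1) u (p u i.castSucc) +
      (CC p base m (gen (p u i.castSucc) * u) (p u i.succ) +
      CC p base m (gen (p u i.succ) * u) (p u i.castSucc)) := by
  simp only [CC, pidx_eq _ hp, psum_succ]

lemma z2 (a b : ZMod 2) : a + b + (a + b) = 0 := by
  revert a b; decide

lemma z2' (a b c : ZMod 2) : a + (a + (b + c)) + b + c = 0 := by
  revert a b c; decide

lemma z2'' (a b c : ZMod 2) : (a + (b + c)) + a + c + b = 0 := by
  revert a b c; decide

/-- square relation for neighbours in the path -/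
lemma CC_square (p : W → Fin 4 → V) (base : W → V → ZMod 2) (m : ℕ) (u : W)
    (hp : Function.Injective (p u)) (i j : Fin 4)
    (hij : i.val + 1 = j.val ∨ j.val + 1 = i.val) :
    CC p base (m + 1) u (p u i) + CC p base (m + 1) u (p u j) +
      CC p base m (gen (p u i) * u) (p u j) + CC p base m (gen (p u j) * u) (p u i) = 0 := by
  rcases hij with h | h
  · obtain ⟨k, hk, hk'⟩ : ∃ k : Fin 3, k.castSucc = i ∧ k.succ = j := by
      refine ⟨⟨i.val, by omega⟩, ?_, ?_⟩
      · ext; rfl
      · ext; simp; omega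
    subst hk; subst hk'
    rw [CC_succ p base m u hp k]
    exact z2' _ _ _
  · obtain ⟨k, hk, hk'⟩ : ∃ k : Fin 3, k.castSucc = j ∧ k.succ = i := by
      refine ⟨⟨j.val, by omega⟩, ?_, ?_⟩
      · ext; rfl
      · ext; simp; omega
    subst hk; subst hk'
    rw [CC_succ p base m u hp k]
    exact z2'' _ _ _

lemma dpath_inj (a b : Bool) : Function.Injective (dpath a b) := by
  intro i j; revert a b i j; decide

/-- descending path at `w` -/
noncomputable def pD (q : Bool × Bool × ℤ) (w : W) : Fin 4 → V :=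
  dpath (stt q w).1 (stt q w).2.1

/-- ascending path at `w` -/
noncomputable def pU (q : Bool × Bool × ℤ) (w : W) : Fin 4 → V :=
  dpath (!(stt q w).1) (!(stt q w).2.1)

lemma pD_inj (q : Bool × Bool × ℤ) (w : W) : Function.Injective (pD q w) := dpath_inj _ _
lemma pU_inj (q : Bool × Bool × ℤ) (w : W) : Function.Injective (pU q w) := dpath_inj _ _

lemma pD_surj (q : Bool × Bool × ℤ) (w : W) (s : V) (h : up q w s = false) :
    ∃ i, pD q w i = s := (dpath_desc _ _ s).1 h

lemma pU_surj (q : Bool × Bool × ℤ) (w : W) (s : V) (h : up q w s = true) :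
    ∃ i, pU q w i = s := by
  apply (dpath_desc _ _ s).1
  rw [asc_not]
  unfold up at h
  rw [h]; rfl

open Classical in
/-- base function, seen from the upper vertex `e` -/
noncomputable def bD (e : W) (s₀ : V) (u : W) (s : V) : ZMod 2 :=
  if u = e ∧ s = s₀ then 1 else 0

open Classical in
/-- base function, seen from the lower vertex -/
noncomputable def bU (e : W) (s₀ : V) (u : W) (s : V) : ZMod 2 :=
  if u = gen s₀ * e ∧ s = s₀ then 1 else 0

lemma bD_bU (e : W) (s₀ : V) (u : W) (s : V) : bD e s₀ (gen s * u) s = bU e s₀ u s := by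
  unfold bD bU
  congr 1
  apply propext
  constructor
  · rintro ⟨h1, h2⟩
    subst h2
    refine ⟨?_, rfl⟩
    rw [← h1, gen_gen]
  · rintro ⟨h1, h2⟩
    subst h2
    refine ⟨?_, rfl⟩
    rw [h1, gen_gen]

/-- the cocycle, with the upper height `M` and the upper, lower vertex given -/
noncomputable def cM (q : Bool × Bool × ℤ) (e : W) (s₀ : V) (M : ℤ) (u l : W) (s : V) : ZMod 2 :=
  if 1 ≤ M then CC (pD q) (bD e s₀) (M - 1).toNat u s
  else CC (pU q) (bU e s₀) (1 - M).toNat l s

/-- the cocycle -/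
noncomputable def cc (q : Bool × Bool × ℤ) (e : W) (s₀ : V) (w : W) (s : V) : ZMod 2 :=
  if up q w s then cM q e s₀ (ht q w + 1) (gen s * w) w s
  else cM q e s₀ (ht q w) w (gen s * w) s

lemma cc_symm (q : Bool × Bool × ℤ) (e : W) (s₀ : V) (w : W) (s : V) :
    cc q e s₀ (gen s * w) s = cc q e s₀ w s := by
  unfold cc
  rw [up_gen_self, gen_gen, ht_gen]
  cases h : up q w s <;> simp

/-- square relation, top corner -/
lemma sq_top (q : Bool × Bool × ℤ) (e : W) (s₀ : V) (w : W) (s t : V)
    (hst : hammingDist s t = 1) (hs : up q w s = false) (ht' : up q w t = false)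
    (h2 : 2 ≤ ht q w) :
    cc q e s₀ w s + cc q e s₀ w t + cc q e s₀ (gen s * w) t + cc q e s₀ (gen t * w) s = 0 := by
  have hts : hammingDist t s = 1 := by rw [hammingDist_comm]; exact hst
  obtain ⟨i, hi⟩ := pD_surj q w s hs
  obtain ⟨j, hj⟩ := pD_surj q w t ht'
  have hij : i.val + 1 = j.val ∨ j.val + 1 = i.val := by
    rw [← hi, ← hj] at hst
    exact (dpath_adj _ _ i j).1 hst
  obtain ⟨m, hm⟩ : ∃ m : ℕ, ht q w = m + 2 := ⟨(ht q w - 2).toNat, by omega⟩
  have e1 : ∀ r : V, up q w r = false → cc q e s₀ w r = CC (pD q) (bD e s₀) (m + 1) w r := by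
    intro r hr
    unfold cc cM
    rw [hr, hm]
    have : ((m : ℤ) + 2 - 1).toNat = m + 1 := by omega
    rw [this]
    have h1 : (1 : ℤ) ≤ (m : ℤ) + 2 := by omega
    simp [h1]
  have e2 : ∀ r r' : V, up q w r = false → up q w r' = false → hammingDist r' r = 1 →
      cc q e s₀ (gen r * w) r' = CC (pD q) (bD e s₀) m (gen r * w) r' := by
    intro r r' hr hr' hrr
    unfold cc cM
    rw [up_gen q r' r hrr, hr', ht_gen, hr, hm]
    have : ((m : ℤ) + 2 + -1 - 1).toNat = m := by omega
    simp only [Bool.false_eq_true, if_false]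
    rw [this]
    have h1 : (1 : ℤ) ≤ (m : ℤ) + 2 + -1 := by omega
    rw [if_pos h1]
  rw [e1 s hs, e1 t ht', e2 s t hs ht' hts, e2 t s ht' hs hst, ← hi, ← hj]
  exact CC_square (pD q) (bD e s₀) m w (pD_inj q w) i j hij

/-- square relation, bottom corner -/
lemma sq_bot (q : Bool × Bool × ℤ) (e : W) (s₀ : V) (w : W) (s t : V)
    (hst : hammingDist s t = 1) (hs : up q w s = true) (ht' : up q w t = true)
    (h2 : ht q w ≤ -1) :
    cc q e s₀ w s + cc q e s₀ w t + cc q e s₀ (gen s * w) t + cc q e s₀ (gen t * w) s = 0 := by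
  have hts : hammingDist t s = 1 := by rw [hammingDist_comm]; exact hst
  obtain ⟨i, hi⟩ := pU_surj q w s hs
  obtain ⟨j, hj⟩ := pU_surj q w t ht'
  have hij : i.val + 1 = j.val ∨ j.val + 1 = i.val := by
    rw [← hi, ← hj] at hst
    exact (dpath_adj _ _ i j).1 hst
  obtain ⟨m, hm⟩ : ∃ m : ℕ, ht q w = -(m : ℤ) - 1 := ⟨(-ht q w - 1).toNat, by omega⟩
  have e1 : ∀ r : V, up q w r = true → cc q e s₀ w r = CC (pU q) (bU e s₀) (m + 1) w r := by
    intro r hr
    unfold cc cM
    rw [hr, hm]
    have : (1 - (-(m : ℤ) - 1 + 1)).toNat = m + 1 := by omega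
    rw [this]
    have h1 : ¬ (1 : ℤ) ≤ -(m : ℤ) - 1 + 1 := by omega
    rw [if_neg h1]; simp
  have e2 : ∀ r r' : V, up q w r = true → up q w r' = true → hammingDist r' r = 1 →
      cc q e s₀ (gen r * w) r' = CC (pU q) (bU e s₀) m (gen r * w) r' := by
    intro r r' hr hr' hrr
    unfold cc cM
    rw [up_gen q r' r hrr, hr', ht_gen, hr, hm]
    simp only [if_true]
    by_cases hm0 : m = 0
    · subst hm0
      have h1 : (1 : ℤ) ≤ -((0 : ℕ) : ℤ) - 1 + 1 + 1 := by norm_num
      rw [if_pos h1]
      have h3 : (-((0 : ℕ) : ℤ) - 1 + 1 + 1 - 1).toNat = 0 := by norm_num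
      rw [h3]
      exact bD_bU e s₀ (gen r * w) r'
    · have h1 : ¬ (1 : ℤ) ≤ -(m : ℤ) - 1 + 1 + 1 := by omega
      rw [if_neg h1]
      have : (1 - (-(m : ℤ) - 1 + 1 + 1)).toNat = m := by omega
      rw [this]
  rw [e1 s hs, e1 t ht', e2 s t hs ht' hts, e2 t s ht' hs hst, ← hi, ← hj]
  exact CC_square (pU q) (bU e s₀) m w (pU_inj q w) i j hij

/-- the square relation -/
def Sq (q : Bool × Bool × ℤ) (e : W) (s₀ : V) (w : W) (s t : V) : Prop :=
  cc q e s₀ w s + cc q e s₀ w t + cc q e s₀ (gen s * w) t + cc q e s₀ (gen t * w) s = 0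

lemma Sq_swap (q : Bool × Bool × ℤ) (e : W) (s₀ : V) (w : W) (s t : V)
    (h : Sq q e s₀ w s t) : Sq q e s₀ w t s := by
  unfold Sq at *
  rw [← h]; ring

lemma Sq_move (q : Bool × Bool × ℤ) (e : W) (s₀ : V) (w : W) (s t : V)
    (hst : hammingDist s t = 1)
    (h : Sq q e s₀ (gen s * w) s t) : Sq q e s₀ w s t := by
  unfold Sq at *
  rw [gen_gen, cc_symm] at h
  rw [gen_comm t s (by rw [hammingDist_comm]; exact hst) w, cc_symm] at h
  rw [← h]; ring

theorem Sq_all (q : Bool × Bool × ℤ) (e : W) (s₀ : V) (w : W) (s t : V)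
    (hst : hammingDist s t = 1) : Sq q e s₀ w s t := by
  have hts : hammingDist t s = 1 := by rw [hammingDist_comm]; exact hst
  -- top corner
  have key : ∀ w : W, up q w s = false → up q w t = false → Sq q e s₀ w s t := by
    intro w hs ht'
    by_cases h2 : 2 ≤ ht q w
    · exact sq_top q e s₀ w s t hst hs ht' h2
    · apply Sq_move q e s₀ w s t hst
      apply Sq_swap
      apply Sq_move q e s₀ _ t s hts
      apply Sq_swap
      have hA : up q (gen s * w) t = false := by rw [up_gen q t s hts]; exact ht'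
      have hB : up q (gen t * (gen s * w)) s = true := by
        rw [up_gen q s t hst, up_gen_self, hs]; rfl
      have hC : up q (gen t * (gen s * w)) t = true := by
        rw [up_gen_self, hA]; rfl
      have hD : ht q (gen t * (gen s * w)) = ht q w - 2 := by
        rw [ht_gen, ht_gen, hA, hs]; simp; ring
      exact sq_bot q e s₀ _ s t hst hB hC (by rw [hD]; omega)
  cases hs : up q w s
  · cases ht' : up q w t
    · exact key w hs ht'
    · apply Sq_swap
      apply Sq_move q e s₀ w t s hts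
      apply Sq_swap
      apply key
      · rw [up_gen q s t hst]; exact hs
      · rw [up_gen_self, ht']; rfl
  · cases ht' : up q w t
    · apply Sq_move q e s₀ w s t hst
      apply key
      · rw [up_gen_self, hs]; rfl
      · rw [up_gen q t s hts]; exact ht'
    · apply Sq_move q e s₀ w s t hst
      apply Sq_swap
      apply Sq_move q e s₀ _ t s hts
      apply Sq_swap
      have hA : up q (gen s * w) t = true := by rw [up_gen q t s hts]; exact ht'
      apply key
      · rw [up_gen q s t hst, up_gen_self, hs]; rfl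
      · rw [up_gen_self, hA]; rfl


/-! ### the action on `W × ZMod 2` -/

/-- generator acting on `W × ZMod 2` -/
noncomputable def gp (q : Bool × Bool × ℤ) (e : W) (s₀ : V) (s : V) :
    Equiv.Perm (W × ZMod 2) where
  toFun x := (gen s * x.1, x.2 + cc q e s₀ x.1 s)
  invFun x := (gen s * x.1, x.2 + cc q e s₀ x.1 s)
  left_inv := by
    rintro ⟨w, x⟩
    simp only [gen_gen, cc_symm, Prod.mk.injEq, true_and]
    have : ∀ a b : ZMod 2, a + b + b = a := by decide
    exact this _ _
  right_inv := by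
    rintro ⟨w, x⟩
    simp only [gen_gen, cc_symm, Prod.mk.injEq, true_and]
    have : ∀ a b : ZMod 2, a + b + b = a := by decide
    exact this _ _

lemma gp_apply (q : Bool × Bool × ℤ) (e : W) (s₀ : V) (s : V) (x : W × ZMod 2) :
    gp q e s₀ s x = (gen s * x.1, x.2 + cc q e s₀ x.1 s) := rfl

lemma gp_sq (q : Bool × Bool × ℤ) (e : W) (s₀ : V) (s : V) (x : W × ZMod 2) :
    gp q e s₀ s (gp q e s₀ s x) = x := (gp q e s₀ s).left_inv x

lemma gp_comm (q : Bool × Bool × ℤ) (e : W) (s₀ : V) (s t : V) (h : hammingDist s t = 1)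
    (x : W × ZMod 2) :
    gp q e s₀ s (gp q e s₀ t x) = gp q e s₀ t (gp q e s₀ s x) := by
  obtain ⟨w, x⟩ := x
  simp only [gp_apply, gen_comm s t h, Prod.mk.injEq, true_and]
  have h2 := Sq_all q e s₀ w s t h
  unfold Sq at h2
  have : ∀ a b c d x : ZMod 2, a + b + c + d = 0 → x + b + d = x + a + c := by decide
  exact this _ _ _ _ _ h2

lemma gp_lift (q : Bool × Bool × ℤ) (e : W) (s₀ : V) : cubeM.IsLiftable (gp q e s₀) := by
  intro s t
  show (gp q e s₀ s * gp q e s₀ t) ^ (cubeM.M s t) = 1
  by_cases h : s = t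
  · subst h
    have hM : cubeM.M s s = 1 := cubeM.diagonal s
    rw [hM, pow_one]
    ext1 x
    exact gp_sq q e s₀ s x
  · by_cases h1 : hammingDist s t = 1
    · have hM : cubeM.M s t = 2 := by simp [cubeM, h, h1]
      rw [hM, pow_two]
      ext1 x
      show gp q e s₀ s (gp q e s₀ t (gp q e s₀ s (gp q e s₀ t x))) = x
      rw [gp_comm q e s₀ s t h1 x, gp_sq, gp_sq]
    · have hM : cubeM.M s t = 0 := by simp [cubeM, h, h1]
      rw [hM, pow_zero]

/-- the homomorphism -/
noncomputable def rho (q : Bool × Bool × ℤ) (e : W) (s₀ : V) : W →* Equiv.Perm (W × ZMod 2) :=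
  cs.lift ⟨gp q e s₀, gp_lift q e s₀⟩

lemma rho_gen (q : Bool × Bool × ℤ) (e : W) (s₀ : V) (s : V) :
    rho q e s₀ (gen s) = gp q e s₀ s := by
  unfold rho gen
  exact cs.lift_apply_simple _ s

lemma rho_fst (q : Bool × Bool × ℤ) (e : W) (s₀ : V) (w : W) :
    (rho q e s₀ w (1, 0)).1 = w := by
  induction w using cs.simple_induction_left with
  | one => simp
  | mul_simple_left w i ih =>
    have : cs.simple i = gen i := rfl
    rw [this, map_mul, Equiv.Perm.mul_apply, rho_gen, gp_apply]
    simp only [ih]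

/-- the potential -/
noncomputable def FF (q : Bool × Bool × ℤ) (e : W) (s₀ : V) (w : W) : ZMod 2 :=
  (rho q e s₀ w (1, 0)).2

lemma FF_gen (q : Bool × Bool × ℤ) (e : W) (s₀ : V) (w : W) (s : V) :
    FF q e s₀ (gen s * w) = FF q e s₀ w + cc q e s₀ w s := by
  unfold FF
  rw [map_mul, Equiv.Perm.mul_apply, rho_gen, gp_apply, rho_fst]

/-- along an edge between heights `0` and `1` -/
lemma FF_edge (q : Bool × Bool × ℤ) (e : W) (s₀ : V) (w : W) (s : V)
    (h0 : ht q w = 0) (h1 : ht q (gen s * w) = 1) :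
    FF q e s₀ (gen s * w) = FF q e s₀ w + bU e s₀ w s := by
  have hu : up q w s = true := by
    rw [ht_gen, h0] at h1
    cases h : up q w s
    · rw [h] at h1; simp at h1
    · rfl
  rw [FF_gen]
  congr 1
  unfold cc cM
  rw [hu, h0]
  simp only [if_true]
  have h2 : (1 : ℤ) ≤ 0 + 1 := by norm_num
  rw [if_pos h2]
  have h3 : ((0 : ℤ) + 1 - 1).toNat = 0 := by norm_num
  rw [h3]
  exact bD_bU e s₀ w s

/-! ### the way down -/

/-- the distinguished neighbour below -/
noncomputable def dn (q : Bool × Bool × ℤ) (w : W) : W :=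
  gen (ldesc (stt q w).1 (stt q w).2.1) * w

lemma ht_dn (q : Bool × Bool × ℤ) (w : W) : ht q (dn q w) = ht q w - 1 := by
  unfold dn
  rw [ht_gen]
  have : up q w (ldesc (stt q w).1 (stt q w).2.1) = false := asc_ldesc _ _
  rw [this]; simp; ring

/-- the root of `w` -/
noncomputable def rt (q : Bool × Bool × ℤ) (w : W) : W := (dn q)^[(ht q w - 1).toNat] w

lemma rt_low (q : Bool × Bool × ℤ) (w : W) (h : ht q w ≤ 1) : rt q w = w := by
  unfold rt
  have : (ht q w - 1).toNat = 0 := by omega
  rw [this]; rfl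

lemma rt_dn (q : Bool × Bool × ℤ) (w : W) (h : 2 ≤ ht q w) : rt q (dn q w) = rt q w := by
  unfold rt
  obtain ⟨m, hm⟩ : ∃ m : ℕ, ht q w = m + 2 := ⟨(ht q w - 2).toNat, by omega⟩
  rw [ht_dn, hm]
  have h1 : ((m : ℤ) + 2 - 1 - 1).toNat = m := by omega
  have h2 : ((m : ℤ) + 2 - 1).toNat = m + 1 := by omega
  rw [h1, h2, Function.iterate_succ_apply]

/-- acyclicity from cuts -/
lemma acyclic_of_cut {α : Type*} (Gr : SimpleGraph α)
    (h : ∀ u v, Gr.Adj u v → ∃ φ : α → Prop, ¬ (φ u ↔ φ v) ∧
      ∀ x y, Gr.Adj x y → s(x, y) ≠ s(u, v) → (φ x ↔ φ y)) : Gr.IsAcyclic := by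
  rw [SimpleGraph.isAcyclic_iff_forall_adj_isBridge]
  intro u v huv
  obtain ⟨φ, h1, h2⟩ := h u v huv
  rw [SimpleGraph.isBridge_iff]
  intro hr
  apply h1
  obtain ⟨p⟩ := hr
  clear h1 huv
  have key : ∀ x y : α, (Gr.deleteEdges {s(u, v)}).Walk x y → (φ x ↔ φ y) := by
    intro x y p
    induction p with
    | nil => exact Iff.rfl
    | cons hadj _ ih =>
      rw [SimpleGraph.deleteEdges_adj] at hadj
      exact (h2 _ _ hadj.1 (fun hh => hadj.2 (by simpa using hh))).trans ih
  exact key _ _ p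

theorem treeAcyclic : TreeAcyclic := by
  intro N q
  apply acyclic_of_cut
  have main : ∀ u v, edgeT N q u v → ∃ φ : W → Prop, ¬ (φ u ↔ φ v) ∧
      ∀ x y, edgeT N q x y → s(x, y) ≠ s(u, v) → (φ x ↔ φ y) := by
    rintro u v (⟨h0, h1, s₀, rfl⟩ | ⟨h2, hN, rfl⟩)
    · -- edge of the critical level
      refine ⟨fun w => FF q (gen s₀ * u) s₀ (rt q w) = FF q (gen s₀ * u) s₀ u, ?_, ?_⟩
      · beta_reduce
        rw [rt_low q u (by omega), rt_low q _ (by omega), FF_edge q _ _ _ _ h0 h1]
        unfold bU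
        rw [gen_gen]
        simp
      · rintro x y (⟨hx, hy, s, rfl⟩ | ⟨hx, hxN, rfl⟩) hne
        · beta_reduce
          rw [rt_low q x (by omega), rt_low q _ (by omega), FF_edge q _ _ _ _ hx hy]
          unfold bU
          rw [gen_gen]
          have : ¬ (x = u ∧ s = s₀) := by
            rintro ⟨rfl, rfl⟩
            exact hne rfl
          rw [if_neg this, add_zero]
        · have : rt q (gen (ldesc (stt q x).1 (stt q x).2.1) * x) = rt q x := rt_dn q x hx
          beta_reduce
          rw [this]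
    · -- edge going down
      have hdn : gen (ldesc (stt q u).1 (stt q u).2.1) * u = dn q u := rfl
      rw [hdn]
      refine ⟨fun w => ∃ k : ℕ, ht q w = ht q u + k ∧ (dn q)^[k] w = u, ?_, ?_⟩
      · intro hh
        have h3 : ∃ k : ℕ, ht q u = ht q u + k ∧ (dn q)^[k] u = u := ⟨0, by simp, rfl⟩
        obtain ⟨k, hk, -⟩ := hh.1 h3
        rw [ht_dn] at hk
        omega
      · rintro x y (⟨hx, hy, s, rfl⟩ | ⟨hx, hxN, rfl⟩) hne
        · constructor
          · rintro ⟨k, hk, -⟩; omega
          · rintro ⟨k, hk, -⟩; omega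
        · have hdx : gen (ldesc (stt q x).1 (stt q x).2.1) * x = dn q x := rfl
          rw [hdx] at hne ⊢
          constructor
          · rintro ⟨k, hk, hk2⟩
            cases k with
            | zero =>
              exfalso
              have : x = u := hk2
              subst this
              exact hne rfl
            | succ k =>
              refine ⟨k, ?_, ?_⟩
              · rw [ht_dn, hk]; push_cast; ring
              · rw [← hk2, Function.iterate_succ_apply]
          · rintro ⟨k, hk, hk2⟩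
            refine ⟨k + 1, ?_, ?_⟩
            · rw [ht_dn] at hk; push_cast; linarith
            · rw [Function.iterate_succ_apply]; exact hk2
  intro u v huv
  unfold TG at huv
  rw [SimpleGraph.fromRel_adj] at huv
  have fin : ∀ φ : W → Prop, (∀ x y, edgeT N q x y → s(x, y) ≠ s(u, v) → (φ x ↔ φ y)) →
      ∀ x y, (TG N q).Adj x y → s(x, y) ≠ s(u, v) → (φ x ↔ φ y) := by
    intro φ hφ x y hxy hne
    unfold TG at hxy
    rw [SimpleGraph.fromRel_adj] at hxy
    rcases hxy.2 with h | h
    · exact hφ x y h hne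
    · exact (hφ y x h (by rwa [Sym2.eq_swap])).symm
  rcases huv.2 with h | h
  · obtain ⟨φ, h1, h2⟩ := main u v h
    exact ⟨φ, h1, fin φ h2⟩
  · obtain ⟨φ, h1, h2⟩ := main v u h
    refine ⟨φ, fun hh => h1 hh.symm, fin φ ?_⟩
    intro x y hxy hne
    exact h2 x y hxy (by rwa [Sym2.eq_swap (a := v)])

end Pool.Agent.AT.TAc

/-- module C1 -/
theorem Pool.Agent.AT.treeAcyclic : Pool.Agent.AT.TreeAcyclic := Pool.Agent.AT.TAc.treeAcyclic
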